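import Pool.Agent.H16.SC.Basic
import Pool.Agent.H16.SC.Targets

/-! Module KBS of kn_modules (helper88): nondegeneracy for ample classes. -/

namespace Pool.Agent.H88.SC

open SCB Filter Topology

section

variable {N P : Type} [NormedAddCommGroup N] [NormedSpace ℝ N] [FiniteDimensional ℝ N] {n : ℕ}
  (X : Geo N P n)

/-- nef classes contain the ample ones -/
lemma amp_nef {a : N} (h : a ∈ X.Amp) : a ∈ X.Nef := interior_subset h

/-- exchange of one ample class -/
lemma kbs_exch (h1 : T_CN) (h2 : T_LR) (h3 : T_PS) (h4 : T_PA) (x a b : N) (R : Multiset N)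
    (ha : a ∈ X.Amp) (hb : b ∈ X.Amp) (hR : ∀ c ∈ R, c ∈ X.Amp) (hc : R.card + 3 = n)
    (h0 : ∀ y, X.I (x ::ₘ y ::ₘ a ::ₘ R) = 0) (y : N) : X.I (x ::ₘ y ::ₘ b ::ₘ R) = 0 := by
  obtain ⟨c1, c2, c3, c4, c5, c6⟩ := h1 N P n X
  have hRN : ∀ c ∈ R, c ∈ X.Nef := fun c h => amp_nef X (hR c h)
  -- for ample `b'` the number `I(b', x, x, R)` is nonpositive
  have hle : ∀ b' ∈ X.Amp, 0 < X.q (b' ::ₘ R) a a ∧ X.q (b' ::ₘ R) a x = 0 ∧
      Lor (X.q (b' ::ₘ R)) ∧ X.q (b' ::ₘ R) x x ≤ 0 := by
    intro b' hb'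
    have hcb : (b' ::ₘ R).card + 2 = n := by rw [Multiset.card_cons]; omega
    have hbN : ∀ c ∈ b' ::ₘ R, c ∈ X.Nef := by
      intro c h
      rcases Multiset.mem_cons.1 h with h | h
      · rw [h]; exact amp_nef X hb'
      · exact hRN c h
    have hLor := (h3 N P n X).2.2.2.1 _ hcb hbN
    have q1 : 0 < X.q (b' ::ₘ R) a a := by
      refine (h4 N P n X).1 _ (by simp only [Multiset.card_cons]; omega) ?_
      intro c h
      rcases Multiset.mem_cons.1 h with h | h
      · rw [h]; exact ha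
      rcases Multiset.mem_cons.1 h with h | h
      · rw [h]; exact ha
      rcases Multiset.mem_cons.1 h with h | h
      · rw [h]; exact hb'
      · exact hR c h
    have q2 : X.q (b' ::ₘ R) a x = 0 := by
      unfold Geo.q
      have h8 : (a ::ₘ x ::ₘ b' ::ₘ R) = (x ::ₘ b' ::ₘ a ::ₘ R) := by
        rw [Multiset.cons_swap a x, Multiset.cons_swap a b']
      rw [h8]
      exact h0 b'
    exact ⟨q1, q2, hLor, (h2 N _ (X.symBil_q hcb) hLor).1 _ _ q1 q2⟩
  obtain ⟨C, hC, hCb⟩ := c4 a ha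
  have hlin : ∀ u : N, X.q (u ::ₘ R) x x = X.I (u ::ₘ x ::ₘ x ::ₘ R) := by
    intro u
    unfold Geo.q
    rw [Multiset.cons_swap u x, Multiset.cons_swap u x]
  have hc3 : (x ::ₘ x ::ₘ R).card + 1 = n := by simp only [Multiset.card_cons]; omega
  have hfa : X.I (a ::ₘ x ::ₘ x ::ₘ R) = 0 := by
    have h8 : (a ::ₘ x ::ₘ x ::ₘ R) = (x ::ₘ x ::ₘ a ::ₘ R) := by
      rw [Multiset.cons_swap a x, Multiset.cons_swap a x]
    rw [h8]
    exact h0 x
  have hamp : (C * ‖b‖ + 1) • a - b ∈ X.Amp := by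
    have h8 : (C * ‖b‖ + 1) • a - b = a + ((C * ‖b‖) • a + -b) := by
      rw [add_smul, one_smul]; abel
    rw [h8]
    apply c5 a ha
    have := hCb (-b)
    rwa [norm_neg] at this
  have hb1 := (hle _ hamp).2.2.2
  rw [hlin, X.I_sub _ _ hc3, X.I_smul _ _ hc3, hfa, mul_zero, zero_sub] at hb1
  obtain ⟨q1, q2, hLor, q3⟩ := hle b hb
  have q4 : X.q (b ::ₘ R) x x = 0 := by
    apply le_antisymm q3
    rw [hlin]
    linarith
  have hcb : (b ::ₘ R).card + 2 = n := by rw [Multiset.card_cons]; omega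
  exact (h2 N _ (X.symBil_q hcb) hLor).2.1 _ _ q1 q2 q4 y

/-- exchange of all ample classes -/
lemma kbs_all (h1 : T_CN) (h2 : T_LR) (h3 : T_PS) (h4 : T_PA) (x : N) (s : Multiset N) :
    ∀ (t u : Multiset N), (∀ c ∈ s, c ∈ X.Amp) → (∀ c ∈ t, c ∈ X.Amp) → (∀ c ∈ u, c ∈ X.Amp) →
    s.card = t.card → s.card + u.card + 2 = n → (∀ y, X.I (x ::ₘ y ::ₘ (s + u)) = 0) →
    ∀ y, X.I (x ::ₘ y ::ₘ (t + u)) = 0 := by
  induction s using Multiset.induction_on with
  | empty =>
    intro t u _ _ _ hst _ h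
    have ht : t = 0 := by
      rw [← Multiset.card_eq_zero, ← hst, Multiset.card_zero]
    rw [ht]
    exact h
  | cons a s ih =>
    intro t u hs ht hu hst hn h
    obtain ⟨b, hbt⟩ : ∃ b, b ∈ t := by
      apply Multiset.card_pos_iff_exists_mem.1
      rw [← hst, Multiset.card_cons]
      omega
    obtain ⟨t', rfl⟩ := Multiset.exists_cons_of_mem hbt
    rw [Multiset.card_cons, Multiset.card_cons] at hst
    rw [Multiset.card_cons] at hn
    have hsA : ∀ c ∈ s, c ∈ X.Amp := fun c hc => hs c (Multiset.mem_cons_of_mem hc)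
    have htA : ∀ c ∈ t', c ∈ X.Amp := fun c hc => ht c (Multiset.mem_cons_of_mem hc)
    have haA : a ∈ X.Amp := hs a (Multiset.mem_cons_self a s)
    have hbA : b ∈ X.Amp := ht b (Multiset.mem_cons_self b t')
    have hstep : ∀ y, X.I (x ::ₘ y ::ₘ b ::ₘ (s + u)) = 0 := by
      apply kbs_exch X h1 h2 h3 h4 x a b (s + u) haA hbA
      · intro c hc
        rcases Multiset.mem_add.1 hc with h | h
        · exact hsA c h
        · exact hu c h
      · rw [Multiset.card_add]; omega
      · intro y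
        have := h y
        rwa [Multiset.cons_add] at this
    have := ih t' (b ::ₘ u) hsA htA (by
        intro c hc
        rcases Multiset.mem_cons.1 hc with h | h
        · rw [h]; exact hbA
        · exact hu c h) (by omega) (by rw [Multiset.card_cons]; omega) (by
        intro y
        rw [Multiset.add_cons]
        exact hstep y)
    intro y
    have h9 := this y
    rwa [Multiset.add_cons, ← Multiset.cons_add] at h9

end

theorem kbs (h1 : T_CN) (h2 : T_LR) (h3 : T_PS) (h4 : T_PA) : T_BS := by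
  intro N P _ _ _ n X s hsn hs x h0
  obtain ⟨c1, c2, c3, c4, c5, c6⟩ := h1 N P n X
  have hall : ∀ t : Multiset N, t.card + 2 = n → (∀ a ∈ t, a ∈ X.Amp) → ∀ y,
      X.I (x ::ₘ y ::ₘ t) = 0 := by
    intro t ht htA y
    have := kbs_all X h1 h2 h3 h4 x s t 0 hs htA (by simp) (by omega)
      (by rw [Multiset.card_zero]; omega) (by rw [add_zero]; exact h0) y
    rwa [add_zero] at this
  obtain ⟨g, hg⟩ := X.G_nonempty
  have hgA := c3 g hg
  obtain ⟨C, hC, hCb⟩ := c4 g hgA
  have key : ∀ w1 w2 : Multiset N, (∀ a ∈ w2, a ∈ X.Amp) → w1.card + w2.card + 1 = n →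
      X.I (x ::ₘ (w1 + w2)) = 0 := by
    intro w1
    induction w1 using Multiset.induction_on with
    | empty =>
      intro w2 hw2 hc
      rw [zero_add]
      obtain ⟨y, hy⟩ : ∃ y, y ∈ w2 := by
        apply Multiset.card_pos_iff_exists_mem.1
        rw [Multiset.card_zero] at hc
        omega
      obtain ⟨t, rfl⟩ := Multiset.exists_cons_of_mem hy
      rw [Multiset.card_cons, Multiset.card_zero] at hc
      exact hall t (by omega) (fun a ha => hw2 a (Multiset.mem_cons_of_mem ha)) y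
    | cons v w1 ih =>
      intro w2 hw2 hc
      rw [Multiset.card_cons] at hc
      set p := g + ((C * ‖v‖) • g + v) with hp
      set q := (C * ‖v‖ + 1) • g with hq
      have hpA : p ∈ X.Amp := c5 g hgA _ (hCb v)
      have hqA : q ∈ X.Amp := c6 g hgA _ (by positivity)
      have hv : v = p - q := by
        rw [hp, hq, add_smul, one_smul]; abel
      have e1 : (x ::ₘ (v ::ₘ w1 + w2)) = v ::ₘ (x ::ₘ (w1 + w2)) := by
        rw [Multiset.cons_add, Multiset.cons_swap]
      have hcc : (x ::ₘ (w1 + w2)).card + 1 = n := by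
        rw [Multiset.card_cons, Multiset.card_add]; omega
      have hpq : ∀ c ∈ X.Amp, X.I (c ::ₘ (x ::ₘ (w1 + w2))) = 0 := by
        intro c hcA
        have := ih (c ::ₘ w2) (by
          intro a ha
          rcases Multiset.mem_cons.1 ha with h | h
          · rw [h]; exact hcA
          · exact hw2 a h) (by rw [Multiset.card_cons]; omega)
        rwa [Multiset.add_cons, Multiset.cons_swap] at this
      rw [e1, hv, X.I_sub _ _ hcc, hpq p hpA, hpq q hqA, sub_zero]
  apply X.nondeg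
  intro w hw
  have := key w 0 (by simp) (by rw [Multiset.card_zero]; omega)
  rwa [add_zero] at this

end Pool.Agent.H88.SC
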