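import Pool.Agent.H16.SC.Basic
import Pool.Agent.H16.SC.Targets

/-! Module KCH of kn_modules (helper88): the chain lemma. -/

namespace Pool.Agent.H88.SC

open SCB Filter Topology

theorem kch (h1 : T_CN) (h2 : T_LR) (h3 : T_PS) (h4 : T_RP) (h5 : T_BS) : T_CH := by
  classical
  intro N P ι _ _ _ _ n X A hA hcard L hL d hd hB
  have hAN : A ∈ X.Nef := subset_closure hA
  have hAA : A ∈ X.Amp := (h1 N P n X).2.2.1 A hA
  have key : ∀ S : Finset ι, ∀ y, X.I (d ::ₘ y ::ₘ ms (rep A S L)) = 0 := by
    intro S
    induction S using Finset.induction_on with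
    | empty =>
      intro y
      rw [rep_empty]
      exact hd y
    | insert i S hi ih =>
      set R : Multiset N := Multiset.replicate S.card A + mss (insert i S)ᶜ L with hR
      have e1 : ms (rep A (insert i S) L) = A ::ₘ R := by
        rw [ms_rep, Finset.card_insert_of_notMem hi, Multiset.replicate_succ, Multiset.cons_add]
      have e2 : ms (rep A S L) = L i ::ₘ R := by
        rw [ms_rep, mss_erase Sᶜ L (i := i) (by simpa using hi), hR, Multiset.add_cons,
          Finset.compl_insert]
      have hcR : R.card + 3 = n := by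
        have h6 : (ms (rep A S L)).card = Fintype.card ι := card_ms _
        rw [e2, Multiset.card_cons] at h6
        omega
      have hRN : ∀ a ∈ A ::ₘ R, a ∈ X.Nef := by
        intro a ha
        have h7 := ((h4 N P ι n X A hA hcard L hL (insert i S)).1).1
        rw [← e1, mem_ms] at ha
        obtain ⟨j, rfl⟩ := ha
        exact h7 j
      have hq2 : (A ::ₘ R).card + 2 = n := by rw [Multiset.card_cons]; omega
      have hLor := (h3 N P n X).2.2.2.1 (A ::ₘ R) hq2 hRN
      have hSB := X.symBil_q hq2
      have q1 : 0 < X.q (A ::ₘ R) (L i) (L i) := by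
        have h7 := (h4 N P ι n X A hA hcard L hL (insert i S)).2.1 i
        rw [e1] at h7
        exact h7
      have q2 : X.q (A ::ₘ R) (L i) d = 0 := by
        have h7 := ih A
        rw [e2] at h7
        have h8 : (L i ::ₘ d ::ₘ A ::ₘ R) = (d ::ₘ A ::ₘ L i ::ₘ R) := by
          rw [Multiset.cons_swap (L i) d, Multiset.cons_swap (L i) A]
        unfold Geo.q
        rw [h8]
        exact h7
      obtain ⟨l1, l2, -⟩ := h2 N (X.q (A ::ₘ R)) hSB hLor
      have q3 : X.q (A ::ₘ R) d d ≤ 0 := l1 _ _ q1 q2
      have q4 : 0 ≤ X.q (A ::ₘ R) d d := hB (A ::ₘ R) hq2 hRN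
      intro y
      rw [e1]
      exact l2 _ _ q1 q2 (le_antisymm q3 q4) y
  have hall := key Finset.univ
  have e3 : ms (rep A Finset.univ L) = Multiset.replicate (Fintype.card ι) A := by
    rw [ms_rep, Finset.card_univ, Finset.compl_univ, mss_empty, add_zero]
  rw [e3] at hall
  exact h5 N P n X (Multiset.replicate (Fintype.card ι) A) (by rw [Multiset.card_replicate]; omega)
    (by
      intro a ha
      rw [Multiset.eq_of_mem_replicate ha]
      exact hAA) d hall

end Pool.Agent.H88.SC
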