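import Pool.Agent.H16.SC.Basic
import Pool.Agent.H16.SC.Targets

/-! Module KL2 of kn_modules (helper88): uniform positivity outside the kernel. -/

namespace Pool.Agent.H88.SC

open SCB Filter Topology

theorem kl2 (h1 : T_CN) (h2 : T_CT) (h3 : T_PS) (h4 : T_PM) (h5 : T_DM) (h6 : T_NB)
    (h7 : T_L1) : T_L2 := by
  intro N P ι _ _ _ _ n r X A hA hcard hrn L hL
  have hprop : ProperSpace N := FiniteDimensional.proper ℝ N
  have hAN : A ∈ X.Nef := subset_closure hA
  have hAA : A ∈ X.Amp := (h1 N P n X).2.2.1 A hA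
  have hcr : (Multiset.replicate r A).card + 1 = n := by
    rw [Multiset.card_replicate]; exact hrn
  have hrepG : ∀ a ∈ Multiset.replicate r A, a ∈ X.G := by
    intro a ha
    rw [Multiset.eq_of_mem_replicate ha]
    exact hA
  have hcL : (A ::ₘ ms L).card + 1 = n := by
    rw [Multiset.card_cons, card_ms]; omega
  have hmsN : ∀ a ∈ ms L, a ∈ X.Nef := by
    intro a ha
    rw [mem_ms] at ha
    obtain ⟨j, rfl⟩ := ha
    exact hL.1 j
  have hAmsN : ∀ a ∈ A ::ₘ ms L, a ∈ X.Nef := by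
    intro a ha
    rcases Multiset.mem_cons.1 ha with h | h
    · rw [h]; exact hAN
    · exact hmsN a h
  obtain ⟨C, hC, hCb⟩ := h6 N P n r X A hA hrn
  by_contra hcon
  push Not at hcon
  have hk : ∀ k : ℕ, ∃ D : P, ¬ X.Ker L (X.cl D) ∧ X.I (X.cl D ::ₘ A ::ₘ ms L) <
      (1 / ((k : ℝ) + 1)) * X.I (X.cl D ::ₘ Multiset.replicate r A) := fun k =>
    hcon (1 / ((k : ℝ) + 1)) (by positivity)
  choose D hD1 hD2 using hk
  have hpos : ∀ k, 0 < X.I (X.cl (D k) ::ₘ Multiset.replicate r A) := fun k =>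
    X.posD (D k) _ hcr hrepG
  set t : ℕ → ℝ := fun k => (X.I (X.cl (D k) ::ₘ Multiset.replicate r A))⁻¹ with ht
  have ht0 : ∀ k, 0 < t k := fun k => inv_pos.2 (hpos k)
  set z : ℕ → N := fun k => t k • X.cl (D k) with hz
  have hzI : ∀ (k : ℕ) (s : Multiset N), s.card + 1 = n →
      X.I (z k ::ₘ s) = t k * X.I (X.cl (D k) ::ₘ s) := fun k s hs => X.I_smul _ _ hs
  have hz1 : ∀ k, X.I (z k ::ₘ Multiset.replicate r A) = 1 := fun k => by
    rw [hzI k _ hcr]
    exact inv_mul_cancel₀ (hpos k).ne'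
  have hzP : ∀ k, X.Pos (z k) := by
    intro k s hs hsn
    rw [hzI k _ hs]
    exact mul_nonneg (ht0 k).le ((h3 N P n X).2.1 (D k) s hs hsn)
  have hzb : ∀ k, z k ∈ Metric.closedBall (0 : N) C := by
    intro k
    rw [mem_closedBall_zero_iff]
    have := hCb (z k) (hzP k)
    rwa [hz1, mul_one] at this
  obtain ⟨d, -, φ, hφ, hlim⟩ := (isCompact_closedBall (0 : N) C).tendsto_subseq hzb
  have hcont : ∀ s : Multiset N, s.card + 1 = n →
      Tendsto (fun k => X.I (z (φ k) ::ₘ s)) atTop (𝓝 (X.I (d ::ₘ s))) := by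
    intro s hs
    exact h2 N P n X ℕ atTop _ _ (MT.cons hlim (MT.const s)) (by rw [Multiset.card_cons]; exact hs)
  have hd1 : X.I (d ::ₘ Multiset.replicate r A) = 1 := by
    refine tendsto_nhds_unique (hcont _ hcr) ?_
    simp only [hz1]
    exact tendsto_const_nhds
  have hdP : X.Pos d := by
    intro s hs hsn
    exact ge_of_tendsto' (hcont s hs) fun k => hzP _ s hs hsn
  have hd0 : X.I (d ::ₘ A ::ₘ ms L) = 0 := by
    apply le_antisymm _ (hdP _ hcL hAmsN)
    have hub : Tendsto (fun k : ℕ => 1 / ((φ k : ℝ) + 1)) atTop (𝓝 0) :=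
      tendsto_one_div_add_atTop_nhds_zero_nat.comp hφ.tendsto_atTop
    refine le_of_tendsto_of_tendsto' (hcont _ hcL) hub fun k => ?_
    rw [hzI _ _ hcL]
    have h8 : t (φ k) * X.I (X.cl (D (φ k)) ::ₘ A ::ₘ ms L) ≤ t (φ k) *
        ((1 / ((φ k : ℝ) + 1)) * X.I (X.cl (D (φ k)) ::ₘ Multiset.replicate r A)) :=
      mul_le_mul_of_nonneg_left (hD2 (φ k)).le (ht0 _).le
    refine h8.trans (le_of_eq ?_)
    rw [mul_comm (1 / ((φ k : ℝ) + 1)), ← mul_assoc, ht]
    simp only
    rw [inv_mul_cancel₀ (hpos (φ k)).ne', one_mul]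
  have hPM : X.PosM (d ::ₘ ms L) := (h4 N P n X).2.2.1 d (ms L) hdP hmsN
  have hall := h5 N P n X (d ::ₘ ms L) (A ::ₘ 0) hPM (by
      intro a ha
      rw [Multiset.cons_zero, Multiset.mem_singleton] at ha
      rw [ha]
      exact hAA) (by
      rw [Multiset.card_cons, Multiset.card_cons, Multiset.card_zero, card_ms]; omega) (by
      rw [Multiset.add_cons, add_zero, Multiset.cons_swap]; exact hd0)
  have hker : X.Ker L d := by
    intro y
    have := hall (y ::ₘ 0) (by rw [Multiset.card_cons, Multiset.card_cons])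
    rwa [Multiset.add_cons, add_zero, Multiset.cons_swap] at this
  have hd00 : d = 0 := h7 N P ι n X A hA hcard L hL (fun k => D (φ k)) (fun k => t (φ k)) d
    (fun k => (ht0 _).le) hlim (fun k => hD1 _) hker
  rw [hd00, X.I_zero hcr] at hd1
  exact zero_ne_one hd1

end Pool.Agent.H88.SC
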