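import Pool.Agent.H16.SC.Basic
import Pool.Agent.H16.SC.Targets

/-! Module KNB of kn_modules (helper88): the norm of a nonnegative class is bounded by its
degree. -/

namespace Pool.Agent.H88.SC

open SCB Filter Topology

theorem knb (h1 : T_CN) (h2 : T_CT) (h3 : T_DM) (h4 : T_PM) : T_NB := by
  intro N P _ _ _ n r X A hA hrn
  have hprop : ProperSpace N := FiniteDimensional.proper ℝ N
  have hAN : A ∈ X.Nef := subset_closure hA
  have hcard : (Multiset.replicate r A).card + 1 = n := by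
    rw [Multiset.card_replicate]; exact hrn
  have hrep : ∀ a ∈ Multiset.replicate r A, a ∈ X.Nef := by
    intro a ha
    rw [Multiset.eq_of_mem_replicate ha]
    exact hAN
  by_contra hcon
  push Not at hcon
  have hk : ∀ k : ℕ, ∃ x : N, X.Pos x ∧
      ((k : ℝ) + 1) * X.I (x ::ₘ Multiset.replicate r A) < ‖x‖ := fun k =>
    hcon ((k : ℝ) + 1) (by positivity)
  choose x hx1 hx2 using hk
  have hI0 : ∀ k, 0 ≤ X.I (x k ::ₘ Multiset.replicate r A) := fun k => hx1 k _ hcard hrep
  have hn0 : ∀ k, 0 < ‖x k‖ := fun k =>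
    lt_of_le_of_lt (mul_nonneg (by positivity) (hI0 k)) (hx2 k)
  set z : ℕ → N := fun k => ‖x k‖⁻¹ • x k with hz
  have hz1 : ∀ k, z k ∈ Metric.sphere (0 : N) 1 := by
    intro k
    rw [mem_sphere_zero_iff_norm, hz]
    simp only
    rw [norm_smul, norm_inv, norm_norm, inv_mul_cancel₀ (hn0 k).ne']
  have hzI : ∀ (k : ℕ) (s : Multiset N), s.card + 1 = n →
      X.I (z k ::ₘ s) = ‖x k‖⁻¹ * X.I (x k ::ₘ s) := fun k s hs => X.I_smul _ _ hs
  obtain ⟨z0, hz0, φ, hφ, hlim⟩ := (isCompact_sphere (0 : N) 1).tendsto_subseq hz1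
  have hcont : ∀ s : Multiset N, s.card + 1 = n →
      Tendsto (fun k => X.I (z (φ k) ::ₘ s)) atTop (𝓝 (X.I (z0 ::ₘ s))) := by
    intro s hs
    exact h2 N P n X ℕ atTop _ _ (MT.cons hlim (MT.const s)) (by rw [Multiset.card_cons]; exact hs)
  have hpos : X.Pos z0 := by
    intro s hs hsn
    refine ge_of_tendsto' (hcont s hs) fun k => ?_
    rw [hzI _ _ hs]
    exact mul_nonneg (inv_nonneg.2 (norm_nonneg _)) (hx1 _ s hs hsn)
  have hzero : X.I (z0 ::ₘ Multiset.replicate r A) = 0 := by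
    refine tendsto_nhds_unique (hcont _ hcard) ?_
    have hub : Tendsto (fun k : ℕ => 1 / ((φ k : ℝ) + 1)) atTop (𝓝 0) :=
      tendsto_one_div_add_atTop_nhds_zero_nat.comp hφ.tendsto_atTop
    refine squeeze_zero (fun k => ?_) (fun k => ?_) hub
    · rw [hzI _ _ hcard]
      exact mul_nonneg (inv_nonneg.2 (norm_nonneg _)) (hI0 _)
    · rw [hzI _ _ hcard, inv_mul_le_iff₀ (hn0 _), mul_one_div, le_div_iff₀ (by positivity), mul_comm]
      exact (hx2 _).le
  have hPM : X.PosM (z0 ::ₘ 0) := (h4 N P n X).2.2.1 z0 0 hpos (by simp)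
  have hall := h3 N P n X (z0 ::ₘ 0) (Multiset.replicate r A) hPM (by
      intro a ha
      rw [Multiset.eq_of_mem_replicate ha]
      exact (h1 N P n X).2.2.1 A hA) (by
      rw [Multiset.card_cons, Multiset.card_zero, Multiset.card_replicate]; omega) (by
      rw [Multiset.cons_add, zero_add]; exact hzero)
  have hz00 : z0 = 0 := by
    apply X.nondeg
    intro s hs
    have := hall s (by rw [Multiset.card_replicate]; omega)
    rwa [Multiset.cons_add, zero_add] at this
  rw [hz00, mem_sphere_zero_iff_norm, norm_zero] at hz0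
  exact zero_ne_one hz0

end Pool.Agent.H88.SC
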